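import Mathlib
import Pool.Agent.H932R3.Nagata
import Pool.Agent.H932R3.Finals

set_option autoImplicit false

/-!
# Project PIND: statements

Independent conditions imposed by general points with small multiplicities.
-/

namespace Pool.Agent.H713R3.PI

open Polynomial Pool.Agent.H932R2 Pool.Agent.H932R3

variable (K : Type) [Field K]

/-- The polynomials of degree at most `d` take all jets of orders `w i` at the points `P i` for
`i ∈ T`. -/
def IND {n : ℕ} (T : Finset (Fin n)) (P : Fin n → Fin 2 → K) (w : Fin n → ℕ) (d : ℕ) : Prop :=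
  ∀ g : Fin n → K[X][X], ∃ f ∈ mspan K (Tset d),
    ∀ i ∈ T, f - g i ∈ cIdeal (fun _ : Fin 1 => P i 0) (C (P i 1)) (w i)

/-- Multiplicities `w i` with `w i + 1 ≤ a i * x` are independent in degree at least `⌊x⌋ - 2`. -/
def IndOn {n : ℕ} (T : Finset (Fin n)) (a : Fin n → ℝ) : Prop :=
  (∀ i ∈ T, a i ≤ 1) ∧ ∀ (w : Fin n → ℕ) (x : ℝ) (d : ℕ), 0 ≤ x →
    (∀ i ∈ T, (w i : ℝ) + 1 ≤ a i * x) → x < d + 3 → ∃ P : Fin n → Fin 2 → K, IND K T P w d

/-- A partition of `T` into `V` cells, each of which is independent for the weights `a`. -/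
def PartI {n : ℕ} (T : Finset (Fin n)) (a : Fin n → ℝ) (V : ℕ) : Prop :=
  ∃ f : Fin n → ℕ, (∀ i ∈ T, f i < V) ∧ ∀ v < V, IndOn K (T.filter fun i => f i = v) a

/-- TASK GRID: the `c * c` points of a grid. -/
def TaskGrid : Prop :=
  ∀ (K : Type) [Field K] [Infinite K] (c M d : ℕ), 0 < c → c * (M + 1) ≤ d + 2 →
    ∃ Q : Fin (c * c) → Fin 2 → K, IND K Finset.univ Q (fun _ => M) d

/-- TASK COMPI: the composition lemma. -/
def TaskCompI : Prop :=
  ∀ (K : Type) [Field K] [Infinite K] (n c : ℕ) (T : Finset (Fin n)) (π : Fin n → Fin c)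
    (w : Fin n → ℕ) (M d : ℕ) (Q : Fin c → Fin 2 → K), 0 < M →
    IND K Finset.univ Q (fun _ => M) d →
    ∀ R : Fin n → Fin 2 → K, (∀ j, IND K (T.filter fun i => π i = j) R w (M - 1)) →
      ∃ P : Fin n → Fin 2 → K, IND K T P w d

/-- TASK RULES: the rules for cells. -/
def TaskRules : Prop :=
  TaskGrid → TaskCompI → ∀ (K : Type) [Field K] [Infinite K] (n : ℕ),
    (∀ (T1 T2 : Finset (Fin n)) (a : Fin n → ℝ) (V1 V2 : ℕ), Disjoint T1 T2 →
      PartI K T1 a V1 → PartI K T2 a V2 → PartI K (T1 ∪ T2) a (V1 + V2)) ∧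
    (∀ (T : Finset (Fin n)) (a : Fin n → ℝ) (V : ℕ), (∀ i ∈ T, 0 ≤ a i) → PartI K T a V →
      PartI K T (fun i => a i / 4) ((V + 15) / 16)) ∧
    (∀ c : ℕ, 4 ≤ c → ∀ (T : Finset (Fin n)) (a : Fin n → ℝ),
      (∀ i ∈ T, 0 ≤ a i ∧ a i ≤ 1 / (c : ℝ)) → PartI K T a ((T.card + (c * c - 1)) / (c * c))) ∧
    (∀ (T : Finset (Fin n)) (a a' : Fin n → ℝ), (∀ i ∈ T, a i ≤ a' i) → IndOn K T a' →
      IndOn K T a) ∧
    (∀ (T : Finset (Fin n)) (a : Fin n → ℝ) (t V : ℕ), (∀ i ∈ T, 0 ≤ a i) → V ≤ 16 ^ t →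
      PartI K T a V → IndOn K T fun i => a i / 4 ^ t)

/-- TASK DIM: the dimension formula for general points. -/
def TaskDim : Prop :=
  ∀ (K : Type) [Field K] (n : ℕ) (w : Fin n → ℕ) (d : ℕ) (P0 : Fin n → Fin 2 → K),
    (IND K Finset.univ P0 w d ∨ NoForm (ptJ P0 w) d) →
    ∃ F : MvPolynomial (Fin n × Fin 2) K, F ≠ 0 ∧
      ∀ P : Fin n → Fin 2 → K,
        MvPolynomial.eval (fun ij : Fin n × Fin 2 => P ij.1 ij.2) F ≠ 0 → ExpDim K w P d

end Pool.Agent.H713R3.PI
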