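import Mathlib
import Pool.Agent.H713R3.PI.Stmts
import Pool.Agent.H713R3.PK.Comp

set_option autoImplicit false

/-!
# Project PIND: the composition lemma
-/

namespace Pool.Agent.H713R3.PI

open Polynomial Pool.Agent.H932R2 Pool.Agent.H932R3 Pool.Agent.H713R3.PK

variable {K : Type} [Field K]

theorem shL_inv (a b : K) (f : K[X][X]) : shL a (C b) (shL (-a) (C (-b)) f) = f := by
  rw [shL_apply, shL_apply, sh_comp]
  have h := sh_sh (0 : K) (0 : K[X]) f
  have e1 : (-(0 : K)) = 0 := neg_zero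
  have h2 : sh (0 : K) (0 : K[X]) f = f := by
    have h3 : sh (0 : K) (0 : K[X]) = RingHom.id _ := by
      refine ringHom_ext' (ringHom_ext' ?_ ?_) ?_
      · ext c
        simp [sh_C]
      · simp [sh_C]
      · simp [sh_X]
    rw [h3]
    rfl
  rw [neg_add_cancel, neg_add_cancel, C_0, h2]

/-- The jets of a suitable polynomial are the given ones. -/
theorem IND.jets {n : ℕ} {T : Finset (Fin n)} {P : Fin n → Fin 2 → K} {w : Fin n → ℕ} {d : ℕ}
    (h : IND K T P w d) (g : Fin n → K[X][X]) :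
    ∃ f ∈ mspan K (Tset d), ∀ i ∈ T, ∀ p : ℕ × ℕ, p.1 + p.2 < w i →
      coL p (shL (P i 0) (C (P i 1)) f) = coL p (g i) := by
  obtain ⟨f, hf, hf'⟩ := h fun i => shL (-P i 0) (C (-P i 1)) (g i)
  refine ⟨f, hf, fun i hi p hp => ?_⟩
  have h1 := (mem_c_iff.1 (hf' i hi)) p hp
  rw [map_sub, shL_inv, map_sub, sub_eq_zero] at h1
  exact h1

theorem sum_shift {V : Type*} [AddCommMonoid V] (g : ℕ → V) (a D : ℕ) (hlow : ∀ e < a, g e = 0)
    (hhigh : ∀ e, D < e → g e = 0) :
    ∑ k ∈ Finset.range (D + 1), g (a + k) = ∑ e ∈ Finset.range (D + 1), g e := by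
  have h9 : ∑ e ∈ Finset.range (a + (D + 1)), g e = ∑ e ∈ Finset.range (D + 1), g e := by
    symm
    refine Finset.sum_subset (Finset.range_subset_range.2 (by omega)) fun e _ he => ?_
    rw [Finset.mem_range, not_lt] at he
    exact hhigh e (by omega)
  rw [← h9]
  have h12 := Finset.sum_range_add g a (D + 1)
  have h10 : ∑ e ∈ Finset.range a, g e = 0 := by
    refine Finset.sum_eq_zero fun e he => ?_
    rw [Finset.mem_range] at he
    exact hlow e he
  rw [h12, h10, zero_add]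

/-- The main computation. -/
theorem key_jet {d M : ℕ} (hM : 0 < M) {t : K} {a b r ρ : K} {p : ℕ × ℕ}
    {F : ℕ → K[X][X]} (hF : ∀ e, F e ∈ mspan K (Tset d)) {G : K[X][X]}
    (hG : G ∈ mspan K (Tset (M - 1))) {δ : K}
    (hFG : ∀ e, ∀ q : ℕ × ℕ, q.1 + q.2 < M →
      coL q (shL a (C b) (F e)) = δ * coL q (Eh e G)) :
    t ^ (p.1 + p.2) * coL p (shL (a + t * r) (C (b + t * ρ))
      (∑ e ∈ Finset.range M, t ^ (M - 1 - e) • F e)) =
    t ^ (M - 1) * (δ * coL p (shL r (C ρ) G) +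
      ∑ k ∈ Finset.range (d + M + 1), t ^ k * ∑ e ∈ Finset.range M,
        if M ≤ e + k then coL p (shL r (C ρ) (Eh (e + k) (shL a (C b) (F e)))) else 0) := by
  have hmono : mspan K (Tset d) ≤ mspan K (Tset (d + M)) := mspan_mono (Tset_mono (by omega))
  -- each term
  have h1 : ∀ e ∈ Finset.range M, t ^ (p.1 + p.2) * coL p (shL (a + t * r) (C (b + t * ρ)) (F e)) =
      t ^ e * (δ * coL p (shL r (C ρ) (Eh e G)) +
        ∑ k ∈ Finset.range (d + M + 1), t ^ k *
          if M ≤ e + k then coL p (shL r (C ρ) (Eh (e + k) (shL a (C b) (F e)))) else 0) := by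
    intro e he
    rw [Finset.mem_range] at he
    obtain ⟨h, hh⟩ : ∃ h, h = shL a (C b) (F e) := ⟨_, rfl⟩
    have hhm : h ∈ mspan K (Tset d) := by
      rw [hh]
      exact shL_mem (hF e) _ _
    have h2 : t ^ (p.1 + p.2) * coL p (shL (a + t * r) (C (b + t * ρ)) (F e)) =
        coL p (shL r (C ρ) (scal t h)) := by
      rw [hh, shL_apply r, shL_apply a, sh_scal, sh_comp, co_scal, shL_apply]
    rw [h2, scal_eq_sum (hmono hhm) t, map_sum, map_sum]
    have h3 : ∀ e' ∈ Finset.range (d + M + 1), coL p (shL r (C ρ) (t ^ e' • Eh e' h)) =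
        (if e' = e then t ^ e * (δ * coL p (shL r (C ρ) (Eh e G))) else 0) +
        (if M ≤ e' then t ^ e' * coL p (shL r (C ρ) (Eh e' h)) else 0) := by
      intro e' _
      rw [map_smul, map_smul, smul_eq_mul]
      by_cases he' : M ≤ e'
      · rw [if_pos he', if_neg (by omega), zero_add]
      · rw [if_neg he', add_zero]
        have h4 : Eh e' h = if e' = e then δ • Eh e G else 0 := by
          refine ext_co fun q => ?_
          rw [co_Eh]
          by_cases hq : q.1 + q.2 = e'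
          · rw [if_pos hq, hh, hFG e q (by omega), co_Eh]
            by_cases h5 : e' = e
            · rw [if_pos (by omega), if_pos h5, map_smul, smul_eq_mul, co_Eh, if_pos (by omega)]
            · rw [if_neg (by omega), if_neg h5, mul_zero, map_zero]
          · rw [if_neg hq]
            by_cases h5 : e' = e
            · rw [if_pos h5, map_smul, smul_eq_mul, co_Eh, if_neg (by omega), mul_zero]
            · rw [if_neg h5, map_zero]
        rw [h4]
        by_cases h5 : e' = e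
        · rw [if_pos h5, if_pos h5, h5, map_smul, map_smul, smul_eq_mul]
        · rw [if_neg h5, if_neg h5, map_zero, map_zero, mul_zero]
    rw [Finset.sum_congr rfl h3, Finset.sum_add_distrib, Finset.sum_ite_eq',
      if_pos (Finset.mem_range.2 (by omega)), mul_add]
    congr 1
    rw [Finset.mul_sum]
    obtain ⟨gf, hgf⟩ : ∃ gf : ℕ → K, ∀ e', gf e' = if M ≤ e' then
        t ^ e' * coL p (shL r (C ρ) (Eh e' h)) else 0 := ⟨_, fun _ => rfl⟩
    have h6 : ∑ k ∈ Finset.range (d + M + 1), gf (e + k) =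
        ∑ e' ∈ Finset.range (d + M + 1), gf e' := by
      refine sum_shift gf e (d + M) (fun e'' he'' => ?_) (fun e'' he'' => ?_)
      · rw [hgf, if_neg (by omega)]
      · have h7 : Eh e'' h = 0 := by
          refine ext_co fun q => ?_
          rw [co_Eh, map_zero]
          split_ifs with h7
          · exact co_mspan hhm (by omega)
          · rfl
        rw [hgf, h7, map_zero, map_zero, mul_zero, ite_self]
    have h9 : ∑ e' ∈ Finset.range (d + M + 1), (if M ≤ e' then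
        t ^ e' * coL p (shL r (C ρ) (Eh e' h)) else 0) = ∑ e' ∈ Finset.range (d + M + 1), gf e' :=
      Finset.sum_congr rfl fun e' _ => (hgf e').symm
    rw [h9, ← h6]
    refine Finset.sum_congr rfl fun k _ => ?_
    rw [hgf, hh]
    split_ifs with h8
    · rw [pow_add]
      ring
    · ring
  rw [map_sum, map_sum, Finset.mul_sum]
  have h2 : ∀ e ∈ Finset.range M, t ^ (p.1 + p.2) *
      coL p (shL (a + t * r) (C (b + t * ρ)) (t ^ (M - 1 - e) • F e)) =
      t ^ (M - 1) * (δ * coL p (shL r (C ρ) (Eh e G)) +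
        ∑ k ∈ Finset.range (d + M + 1), t ^ k *
          if M ≤ e + k then coL p (shL r (C ρ) (Eh (e + k) (shL a (C b) (F e)))) else 0) := by
    intro e he
    have h3 := h1 e he
    rw [Finset.mem_range] at he
    rw [map_smul, map_smul, smul_eq_mul, mul_left_comm, h3, ← mul_assoc, ← pow_add]
    congr 2
    omega
  rw [Finset.sum_congr rfl h2, ← Finset.mul_sum, Finset.sum_add_distrib]
  congr 2
  · rw [← Finset.mul_sum]
    congr 1
    have h4 : G = ∑ e ∈ Finset.range M, Eh e G := by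
      refine ext_co fun q => ?_
      rw [map_sum]
      have h5 : ∀ e ∈ Finset.range M, coL q (Eh e G) = if q.1 + q.2 = e then coL q G else 0 :=
        fun e _ => co_Eh e q G
      rw [Finset.sum_congr rfl h5, Finset.sum_ite_eq]
      split_ifs with h6
      · rfl
      · rw [Finset.mem_range, not_lt] at h6
        exact co_mspan hG (by omega)
    conv_rhs => rw [h4]
    rw [map_sum, map_sum]
  · rw [Finset.sum_comm]
    refine Finset.sum_congr rfl fun k _ => ?_
    rw [Finset.mul_sum]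

/-- **Task COMPI.** -/
theorem taskCompI : TaskCompI := by
  intro K _ _ n c T π w M d Q hM hQ R hR
  classical
  obtain ⟨B, hB⟩ : ∃ B, B = ∑ i, w i := ⟨_, rfl⟩
  have hwB : ∀ i, w i ≤ B := fun i => by
    rw [hB]
    exact Finset.single_le_sum (fun _ _ => Nat.zero_le _) (Finset.mem_univ i)
  obtain ⟨E, hE⟩ : ∃ E : Finset (Fin n × (ℕ × ℕ)), ∀ q, q ∈ E ↔ q.1 ∈ T ∧ q.2.1 + q.2.2 < w q.1 := by
    refine ⟨(T ×ˢ (Finset.range B ×ˢ Finset.range B)).filter fun q => q.2.1 + q.2.2 < w q.1,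
      fun q => ?_⟩
    rw [Finset.mem_filter, Finset.mem_product, Finset.mem_product, Finset.mem_range,
      Finset.mem_range]
    constructor
    · rintro ⟨⟨h1, _⟩, h2⟩
      exact ⟨h1, h2⟩
    · rintro ⟨h1, h2⟩
      have := hwB q.1
      exact ⟨⟨h1, by omega, by omega⟩, h2⟩
  -- the small polynomials
  have hG : ∀ q : Fin n × (ℕ × ℕ), ∃ G ∈ mspan K (Tset (M - 1)), ∀ i ∈ T, π i = π q.1 →
      ∀ p : ℕ × ℕ, p.1 + p.2 < w i →
        coL p (shL (R i 0) (C (R i 1)) G) = if (i, p) = q then 1 else 0 := by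
    intro q
    obtain ⟨G, hG, hG'⟩ := (hR (π q.1)).jets fun i => if i = q.1 then mon K q.2 else 0
    refine ⟨G, hG, fun i hi hiq p hp => ?_⟩
    rw [hG' i (Finset.mem_filter.2 ⟨hi, hiq⟩) p hp]
    by_cases h1 : i = q.1
    · rw [if_pos h1, coL_apply, coeff_mon]
      by_cases h2 : q.2 = p
      · rw [if_pos (by rw [h2]), if_pos (Prod.ext h1 h2.symm)]
      · rw [if_neg (fun h3 => h2 h3), if_neg]
        rintro rfl
        exact h2 rfl
    · rw [if_neg h1, map_zero, if_neg]
      rintro rfl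
      exact h1 rfl
  choose G hG hG' using hG
  -- the big polynomials
  have hF : ∀ (q : Fin n × (ℕ × ℕ)) (e : ℕ), ∃ F ∈ mspan K (Tset d), ∀ (j : Fin c) (p : ℕ × ℕ),
      p.1 + p.2 < M → coL p (shL (Q j 0) (C (Q j 1)) F) =
        (if j = π q.1 then 1 else 0) * coL p (Eh e (G q)) := by
    intro q e
    obtain ⟨F, hF, hF'⟩ := hQ.jets fun j => if j = π q.1 then Eh e (G q) else 0
    refine ⟨F, hF, fun j p hp => ?_⟩
    rw [hF' j (Finset.mem_univ j) p hp]
    split_ifs
    · rw [one_mul]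
    · rw [map_zero, zero_mul]
  choose F hF hF' using hF
  -- the family
  obtain ⟨Φ, hΦ⟩ : ∃ Φ : E → ℕ → E → K, ∀ q k q', Φ q k q' =
      (if k = 0 then (if q' = q then 1 else 0) else 0) + ∑ e ∈ Finset.range M,
        if M ≤ e + k then coL q'.1.2 (shL (R q'.1.1 0) (C (R q'.1.1 1))
          (Eh (e + k) (shL (Q (π q'.1.1) 0) (C (Q (π q'.1.1) 1)) (F q.1 e)))) else 0 :=
    ⟨_, fun _ _ _ => rfl⟩
  have hΦ0 : ∀ q q', Φ q 0 q' = if q' = q then 1 else 0 := by
    intro q q'
    rw [hΦ, if_pos rfl, add_eq_left]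
    refine Finset.sum_eq_zero fun e he => ?_
    rw [Finset.mem_range] at he
    rw [if_neg (by omega)]
  obtain ⟨N, hN⟩ : ∃ N, N = Fintype.card E := ⟨_, rfl⟩
  obtain ⟨φ⟩ : Nonempty (Fin N ≃ E) := ⟨(Fintype.equivFinOfCardEq hN.symm).symm⟩
  have h0 : LinearIndependent K (fun i : Fin N => Φ (φ i) 0) := by
    rw [Fintype.linearIndependent_iff]
    intro g hg i
    have h1 := congrFun hg (φ i)
    rw [Finset.sum_apply, Pi.zero_apply] at h1
    have h2 : ∀ j : Fin N, (g j • Φ (φ j) 0) (φ i) = if i = j then g j else 0 := by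
      intro j
      rw [Pi.smul_apply, hΦ0, smul_eq_mul]
      by_cases h : i = j
      · rw [if_pos (by rw [h]), if_pos h, mul_one]
      · rw [if_neg (fun h' => h (φ.injective h')), if_neg h, mul_zero]
    rw [Finset.sum_congr rfl fun j _ => h2 j, Finset.sum_ite_eq, if_pos (Finset.mem_univ i)] at h1
    exact h1
  obtain ⟨t, ht0, ht⟩ := exists_ne_zero_li (d + M) (fun i k => Φ (φ i) k) h0
  have hspan : ⊤ ≤ Submodule.span K
      (Set.range fun i : Fin N => ∑ k ∈ Finset.range (d + M + 1), t ^ k • Φ (φ i) k) := by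
    rw [top_le_iff]
    refine ht.span_eq_top_of_card_eq_finrank' ?_
    rw [Fintype.card_fin, Module.finrank_fintype_fun_eq_card, hN]
  -- the jets of the family
  obtain ⟨V, hV⟩ : ∃ V : E → K[X][X], ∀ q, V q =
      ∑ e ∈ Finset.range M, t ^ (M - 1 - e) • F q.1 e := ⟨_, fun _ => rfl⟩
  obtain ⟨P, hP⟩ : ∃ P : Fin n → Fin 2 → K, ∀ i b, P i b = Q (π i) b + t * R i b :=
    ⟨_, fun _ _ => rfl⟩
  have hVm : ∀ q, V q ∈ mspan K (Tset d) := fun q => by
    rw [hV]
    exact Submodule.sum_mem _ fun e _ => Submodule.smul_mem _ _ (hF q.1 e)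
  have key : ∀ q q' : E, t ^ (q'.1.2.1 + q'.1.2.2) *
      coL q'.1.2 (shL (P q'.1.1 0) (C (P q'.1.1 1)) (V q)) =
      t ^ (M - 1) * (∑ k ∈ Finset.range (d + M + 1), t ^ k • Φ q k) q' := by
    intro q q'
    obtain ⟨hq1, hq2⟩ := (hE q'.1).1 q'.2
    rw [hP, hP, hV, key_jet hM (hF q.1) (hG q.1) (hF' q.1 · (π q'.1.1))]
    congr 1
    rw [Finset.sum_apply]
    have h1 : ∀ k ∈ Finset.range (d + M + 1), (t ^ k • Φ q k) q' =
        (if k = 0 then (if q' = q then 1 else 0) else 0) + t ^ k * ∑ e ∈ Finset.range M,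
        if M ≤ e + k then coL q'.1.2 (shL (R q'.1.1 0) (C (R q'.1.1 1))
          (Eh (e + k) (shL (Q (π q'.1.1) 0) (C (Q (π q'.1.1) 1)) (F q.1 e)))) else 0 := by
      intro k _
      rw [Pi.smul_apply, smul_eq_mul, hΦ, mul_add]
      congr 1
      by_cases hk : k = 0
      · rw [if_pos hk, hk, pow_zero, one_mul]
      · rw [if_neg hk, mul_zero]
    rw [Finset.sum_congr rfl h1, Finset.sum_add_distrib, Finset.sum_ite_eq',
      if_pos (Finset.mem_range.2 (by omega))]
    congr 1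
    by_cases h2 : π q'.1.1 = π q.1.1
    · rw [if_pos h2, one_mul, hG' q.1 q'.1.1 hq1 h2 q'.1.2 hq2]
      by_cases h3 : q' = q
      · rw [if_pos h3, if_pos (by rw [h3])]
      · rw [if_neg h3, if_neg (fun h4 => h3 (Subtype.ext h4))]
    · rw [if_neg h2, zero_mul, if_neg]
      rintro rfl
      exact h2 rfl
  refine ⟨P, fun g => ?_⟩
  obtain ⟨u, hu⟩ : ∃ u : E → K, ∀ q, u q = (t ^ (M - 1))⁻¹ * (t ^ (q.1.2.1 + q.1.2.2) *
      coL q.1.2 (shL (P q.1.1 0) (C (P q.1.1 1)) (g q.1.1))) := ⟨_, fun _ => rfl⟩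
  have h1 : u ∈ Submodule.span K
      (Set.range fun i : Fin N => ∑ k ∈ Finset.range (d + M + 1), t ^ k • Φ (φ i) k) :=
    hspan Submodule.mem_top
  rw [Submodule.mem_span_range_iff_exists_fun] at h1
  obtain ⟨a, ha⟩ := h1
  refine ⟨∑ i, a i • V (φ i), Submodule.sum_mem _ fun i _ => Submodule.smul_mem _ _ (hVm _),
    fun i hi => ?_⟩
  rw [mem_c_iff]
  intro p hp
  have hmem : (i, p) ∈ E := (hE (i, p)).2 ⟨hi, hp⟩
  have h2 := congrFun ha ⟨(i, p), hmem⟩
  rw [hu, Finset.sum_apply] at h2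
  simp only at h2
  have htM : t ^ (M - 1) ≠ 0 := pow_ne_zero _ ht0
  have htp : t ^ (p.1 + p.2) ≠ 0 := pow_ne_zero _ ht0
  rw [map_sub, map_sub, sub_eq_zero]
  refine mul_left_cancel₀ htp ?_
  rw [map_sum, map_sum, Finset.mul_sum]
  have h3 : ∀ j ∈ (Finset.univ : Finset (Fin N)), t ^ (p.1 + p.2) *
      coL p (shL (P i 0) (C (P i 1)) (a j • V (φ j))) = t ^ (M - 1) *
      (a j • ∑ k ∈ Finset.range (d + M + 1), t ^ k • Φ (φ j) k) ⟨(i, p), hmem⟩ := by
    intro j _
    rw [map_smul, map_smul, smul_eq_mul, mul_left_comm, key (φ j) ⟨(i, p), hmem⟩, Pi.smul_apply,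
      smul_eq_mul]
    ring
  rw [Finset.sum_congr rfl h3, ← Finset.mul_sum, h2, ← mul_assoc, mul_inv_cancel₀ htM, one_mul]

end Pool.Agent.H713R3.PI
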