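import Mathlib
import Pool.Agent.H713R3.PI.Stmts
import Pool.Agent.H713R3.PI.CompI
import Pool.Agent.H713R3.PK.Comp
import Pool.Agent.H713R3.PK.Cells
import Pool.Agent.H713R3.PK.Part
import Pool.Agent.H713R3.PK.Explicit
import Pool.Agent.H713R3.PK.Gen

set_option autoImplicit false

/-!
# Project PIND: assembly
-/

namespace Pool.Agent.H713R3.PI

open Polynomial Pool.Agent.H932R2 Pool.Agent.H932R3

variable {K : Type} [Field K]

theorem indOn_empty {n : ℕ} (a : Fin n → ℝ) : IndOn K (∅ : Finset (Fin n)) a := by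
  refine ⟨fun i hi => absurd hi (Finset.notMem_empty i), fun w x d _ _ _ => ?_⟩
  refine ⟨fun _ _ => 0, fun g => ⟨0, Submodule.zero_mem _, fun i hi => ?_⟩⟩
  exact absurd hi (Finset.notMem_empty i)

theorem PartI.mono {n : ℕ} {T : Finset (Fin n)} {a : Fin n → ℝ} {V V' : ℕ} (h : PartI K T a V)
    (hV : V ≤ V') : PartI K T a V' := by
  obtain ⟨f, h1, h2⟩ := h
  refine ⟨f, fun i hi => (h1 i hi).trans_le hV, fun v _ => ?_⟩
  by_cases hv : v < V
  · exact h2 v hv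
  · have e : T.filter (fun i => f i = v) = ∅ := by
      rw [Finset.filter_eq_empty_iff]
      intro i hi h3
      have := h1 i hi
      omega
    rw [e]
    exact indOn_empty a

theorem pack_ind [Infinite K] (hR : TaskRules) (hGr : TaskGrid) {ε : ℝ} (hε : 0 < ε) (hε1 : ε ≤ 1)
    {n : ℕ} (T0 : Finset (Fin n)) {a : Fin n → ℝ} (ha : ∀ i, 0 ≤ a i ∧ a i ≤ ε ^ 2 / 1000)
    (hsum : ∑ i, a i ^ 2 ≤ 1 - ε) : IndOn K T0 a := by
  classical
  obtain ⟨hU, hM, hN, hG, hF⟩ := hR hGr taskCompI K n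
  obtain ⟨L, t, hL, h1, h2⟩ := PK.params_explicit ε hε hε1
  have h := PK.Acc.pack (fun T a V => PartI K (T ∩ T0) a V) (fun T a => IndOn K (T ∩ T0) a) L hL
    (fun T1 T2 a V1 V2 hd hP1 hP2 => by
      rw [Finset.union_inter_distrib_right]
      exact hU _ _ a V1 V2 (hd.mono Finset.inter_subset_left Finset.inter_subset_left) hP1 hP2)
    (fun T a V ha hP => hM _ a V (fun i hi => ha i (Finset.mem_inter.1 hi).1) hP)
    (fun c hc T a ha => (hN c hc (T ∩ T0) a fun i hi => ha i (Finset.mem_inter.1 hi).1).mono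
      (Nat.div_le_div_right (Nat.add_le_add_right (Finset.card_le_card Finset.inter_subset_left) _)))
    (fun T a a' h hg => hG _ a a' (fun i hi => h i (Finset.mem_inter.1 hi).1) hg)
    (fun T a t V ha hV hP => hF _ a t V (fun i hi => ha i (Finset.mem_inter.1 hi).1) hV hP)
    ε hε t h1 a (fun i => ⟨(ha i).1, (ha i).2.trans h2⟩) hsum
  rw [Finset.univ_inter] at h
  exact h

/-- Independence of the conditions. -/
theorem ind_side [Infinite K] (hR : TaskRules) (hGr : TaskGrid) {ε : ℝ} (hε : 0 < ε) (hε1 : ε ≤ 1)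
    {n d : ℕ} {w : Fin n → ℕ} (h1 : ∀ i, 0 < w i → 1000 * ((w i : ℝ) + 1) ≤ ε ^ 2 * (d + 2))
    (h2 : ∑ i ∈ Finset.univ.filter (fun i => 0 < w i), ((w i : ℝ) + 1) ^ 2 ≤
      (1 - ε) * ((d : ℝ) + 2) ^ 2) :
    ∃ P : Fin n → Fin 2 → K, IND K Finset.univ P w d := by
  classical
  have hD : (0 : ℝ) < (d : ℝ) + 2 := by positivity
  obtain ⟨b, hb⟩ : ∃ b : Fin n → ℝ, ∀ i, b i = if 0 < w i then ((w i : ℝ) + 1) / (d + 2) else 0 :=
    ⟨_, fun _ => rfl⟩
  have hb1 : ∀ i, 0 ≤ b i ∧ b i ≤ ε ^ 2 / 1000 := by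
    intro i
    rw [hb]
    split_ifs with h
    · refine ⟨by positivity, ?_⟩
      rw [div_le_div_iff₀ hD (by norm_num)]
      linarith [h1 i h]
    · exact ⟨le_rfl, by positivity⟩
  have hb2 : ∑ i, b i ^ 2 ≤ 1 - ε := by
    have h3 : ∑ i, b i ^ 2 = (∑ i ∈ Finset.univ.filter (fun i => 0 < w i), ((w i : ℝ) + 1) ^ 2) /
        ((d : ℝ) + 2) ^ 2 := by
      rw [Finset.sum_div, Finset.sum_filter]
      refine Finset.sum_congr rfl fun i _ => ?_
      rw [hb]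
      split_ifs
      · rw [div_pow]
      · norm_num
    rw [h3, div_le_iff₀ (by positivity)]
    exact h2
  obtain ⟨-, h4⟩ := pack_ind (K := K) hR hGr hε hε1 (Finset.univ.filter fun i => 0 < w i) hb1 hb2
  obtain ⟨P, hP⟩ := h4 w ((d : ℝ) + 2) d hD.le (fun i hi => by
    rw [hb, if_pos (Finset.mem_filter.1 hi).2, div_mul_cancel₀ _ hD.ne']) (by linarith)
  refine ⟨P, fun g => ?_⟩
  obtain ⟨f, hf, hf'⟩ := hP g
  refine ⟨f, hf, fun i _ => ?_⟩
  by_cases hi : 0 < w i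
  · exact hf' i (Finset.mem_filter.2 ⟨Finset.mem_univ i, hi⟩)
  · have h0 : w i = 0 := by omega
    rw [PK.mem_c_iff]
    intro p hp
    omega

/-- Emptiness. -/
theorem empty_side [CharZero K] {ε : ℝ} (hε : 0 < ε) (hε1 : ε ≤ 1)
    {n d : ℕ} {w : Fin n → ℕ} (h1 : ∀ i, 1000 * (w i : ℝ) ≤ ε ^ 2 * d)
    (h2 : (d : ℝ) ^ 2 < (1 - ε) * ∑ i, (w i : ℝ) ^ 2) :
    ∃ P : Fin n → Fin 2 → K, NoForm (ptJ P w) d := by
  have hcells := PK.taskCells PK.taskComp PK.taskSingle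
  have hrules := PK.taskPart hcells PK.taskSingle K
  obtain ⟨S, hS⟩ : ∃ S, S = ∑ i, (w i : ℝ) ^ 2 := ⟨_, rfl⟩
  rw [← hS] at h2
  have hS0 : 0 ≤ S := by
    rw [hS]
    exact Finset.sum_nonneg fun i _ => sq_nonneg _
  have hS1 : 0 < S := by
    rcases hS0.eq_or_lt with h | h
    · rw [← h, mul_zero] at h2
      exact absurd h2 (not_lt.2 (sq_nonneg _))
    · exact h
  have hd0 : (0 : ℝ) < d := by
    rcases (Nat.cast_nonneg d : (0 : ℝ) ≤ d).eq_or_lt with h | h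
    · exfalso
      have h3 : S = 0 := by
        rw [hS]
        refine Finset.sum_eq_zero fun i _ => ?_
        have h4 := h1 i
        rw [← h, mul_zero] at h4
        have h5 : (0 : ℝ) ≤ w i := Nat.cast_nonneg _
        have h6 : (w i : ℝ) = 0 := by linarith
        rw [h6]
        norm_num
      linarith
    · exact h
  have hε' : 0 < 1 - ε := by
    by_contra hcon
    push Not at hcon
    have := mul_nonpos_of_nonpos_of_nonneg hcon hS0
    have := sq_nonneg (d : ℝ)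
    linarith
  obtain ⟨l, hl⟩ : ∃ l, l = Real.sqrt ((1 - ε) / S) := ⟨_, rfl⟩
  have hl0 : 0 < l := by
    rw [hl]
    exact Real.sqrt_pos.2 (by positivity)
  have hl2 : l ^ 2 = (1 - ε) / S := by
    rw [hl, Real.sq_sqrt (by positivity)]
  have hlS : l ^ 2 * S = 1 - ε := by
    rw [hl2, div_mul_cancel₀ _ hS1.ne']
  have hld : l * d ≤ 1 := by
    have h3 : (l * d) ^ 2 ≤ 1 ^ 2 := by
      have h4 : l ^ 2 * (d : ℝ) ^ 2 ≤ l ^ 2 * ((1 - ε) * S) :=
        mul_le_mul_of_nonneg_left h2.le (sq_nonneg _)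
      have h5 : l ^ 2 * ((1 - ε) * S) = (1 - ε) * (1 - ε) := by
        rw [mul_left_comm, hlS]
      have h6 : (1 - ε) * (1 - ε) ≤ 1 := by nlinarith
      rw [mul_pow]
      linarith
    exact le_of_sq_le_sq h3 (by norm_num)
  have hb1 : ∀ i, 0 ≤ l * w i ∧ l * w i ≤ ε ^ 2 / 1000 := by
    intro i
    refine ⟨by positivity, ?_⟩
    have h3 := mul_le_mul_of_nonneg_left (h1 i) hl0.le
    have h4 : l * (ε ^ 2 * d) ≤ ε ^ 2 := by
      calc l * (ε ^ 2 * d) = ε ^ 2 * (l * d) := by ring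
        _ ≤ ε ^ 2 * 1 := mul_le_mul_of_nonneg_left hld (sq_nonneg _)
        _ = ε ^ 2 := mul_one _
    linarith
  have hb2 : ∑ i, (l * (w i : ℝ)) ^ 2 ≤ 1 - ε := by
    have h3 : ∑ i, (l * (w i : ℝ)) ^ 2 = l ^ 2 * S := by
      rw [hS, Finset.mul_sum]
      exact Finset.sum_congr rfl fun i _ => mul_pow _ _ _
    rw [h3, hlS]
  have hgood := PK.pack_explicit hrules hε hε1 hb1 hb2
  obtain ⟨P, hP⟩ := hgood w d (by
    have h3 : ∑ i, l * (w i : ℝ) * w i = l * S := by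
      rw [hS, Finset.mul_sum]
      exact Finset.sum_congr rfl fun i _ => by ring
    rw [h3]
    refine lt_of_pow_lt_pow_left₀ 2 (by positivity) ?_
    have h4 : (l * S) ^ 2 = (l ^ 2 * S) * S := by ring
    rw [h4, hlS]
    exact h2)
  exact ⟨P, PK.noForm_of_NP hP⟩

/-- **The dimension formula for small multiplicities.** -/
theorem small_expDim [CharZero K] (hR : TaskRules) (hGr : TaskGrid) (hDim : TaskDim) {ε : ℝ}
    (hε : 0 < ε) (hε1 : ε ≤ 1) {n d : ℕ} {w : Fin n → ℕ}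
    (h : ((∀ i, 0 < w i → 1000 * ((w i : ℝ) + 1) ≤ ε ^ 2 * (d + 2)) ∧
        ∑ i ∈ Finset.univ.filter (fun i => 0 < w i), ((w i : ℝ) + 1) ^ 2 ≤
          (1 - ε) * ((d : ℝ) + 2) ^ 2) ∨
      ((∀ i, 1000 * (w i : ℝ) ≤ ε ^ 2 * d) ∧ (d : ℝ) ^ 2 < (1 - ε) * ∑ i, (w i : ℝ) ^ 2)) :
    ∃ F : MvPolynomial (Fin n × Fin 2) K, F ≠ 0 ∧ ∀ P : Fin n → Fin 2 → K,
      MvPolynomial.eval (fun ij : Fin n × Fin 2 => P ij.1 ij.2) F ≠ 0 → ExpDim K w P d := by
  have hinf : Infinite K := Infinite.of_injective (Nat.cast : ℕ → K) Nat.cast_injective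
  rcases h with ⟨h1, h2⟩ | ⟨h1, h2⟩
  · obtain ⟨P, hP⟩ := ind_side (K := K) hR hGr hε hε1 h1 h2
    exact hDim K n w d P (Or.inl hP)
  · obtain ⟨P, hP⟩ := empty_side (K := K) hε hε1 h1 h2
    exact hDim K n w d P (Or.inr hP)

end Pool.Agent.H713R3.PI
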