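import Pool.Agent.H713R3.PI.Stmts

set_option autoImplicit false

/-!
# Project PIND: the dimension formula for general points
-/

namespace Pool.Agent.H713R3.PI.Dim

open Polynomial Pool.Agent.H932R2 Pool.Agent.H932R3 Pool.Agent.H713R3.PI

variable {K : Type} [Field K]

theorem sh_inv (c b : K) (f : K[X][X]) : sh c (C b) (sh (-c) (C (-b)) f) = f := by
  have h := sh_sh (-c) (C (-b)) f
  simpa using h

theorem exists_single (m : ℕ) (c b : K) (p : EE 1 m) :
    ∃ g : K[X][X], condMap 1 m c (C b) g = Pi.single p 1 := by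
  classical
  refine ⟨sh (-c) (C (-b)) (mon K p.1), ?_⟩
  ext e
  show ((sh c (C b) (sh (-c) (C (-b)) (mon K p.1))).coeff e.1.2).coeff e.1.1 = _
  rw [sh_inv, mon, coeff_C_mul, coeff_X_pow]
  by_cases he : e = p
  · subst he
    simp
  · rw [Pi.single_eq_of_ne he]
    by_cases h2 : e.1.2 = p.1.2
    · rw [if_pos h2, mul_one, coeff_X_pow, if_neg]
      intro h1
      exact he (Subtype.ext (Prod.ext h1 h2))
    · rw [if_neg h2, mul_zero, coeff_zero]

theorem ind_rk {n : ℕ} {w : Fin n → ℕ} {d : ℕ} {P0 : Fin n → Fin 2 → K}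
    (h : IND K Finset.univ P0 w d) :
    RkI (vIdeal 1 w (fun a => P0 a 0) (fun a => C (P0 a 1))) (Tset d)
      (∑ a, (EE 1 (w a)).card) := by
  classical
  have hcard : Fintype.card (Σ a : Fin n, EE 1 (w a)) = ∑ a, (EE 1 (w a)).card := by
    rw [Fintype.card_sigma]
    exact Finset.sum_congr rfl fun a _ => Fintype.card_coe _
  let e : Fin (∑ a, (EE 1 (w a)).card) ≃ (Σ a : Fin n, EE 1 (w a)) :=
    (Fintype.equivFinOfCardEq hcard).symm
  have h1 : ∀ q : (Σ a : Fin n, EE 1 (w a)), ∃ f ∈ mspan K (Tset d),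
      condMapV 1 w (fun a => P0 a 0) (fun a => C (P0 a 1)) f = Pi.single q 1 := by
    rintro ⟨a, p⟩
    obtain ⟨g, hg⟩ := exists_single (w a) (P0 a 0) (P0 a 1) p
    obtain ⟨f, hf, hf'⟩ := h (fun i => if i = a then g else 0)
    refine ⟨f, hf, ?_⟩
    ext ⟨b, q⟩
    have h2 := hf' b (Finset.mem_univ _)
    rw [mem_cIdeal_iff', map_sub, sub_eq_zero] at h2
    show condMap 1 (w b) (P0 b 0) (C (P0 b 1)) f q = _
    rw [h2]
    by_cases hb : b = a
    · subst hb
      rw [if_pos rfl, hg]
      by_cases hq : q = p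
      · subst hq
        rw [Pi.single_eq_same, Pi.single_eq_same]
      · rw [Pi.single_eq_of_ne hq, Pi.single_eq_of_ne]
        intro hcon
        exact hq (eq_of_heq (Sigma.mk.inj hcon).2)
    · rw [if_neg hb, map_zero, Pi.zero_apply, Pi.single_eq_of_ne]
      intro hcon
      exact hb (congrArg Sigma.fst hcon)
  choose v hv hv' using h1
  refine ⟨fun i => v (e i), fun i => hv _, fun c hc i => ?_⟩
  rw [mem_vIdeal_iff, map_sum] at hc
  have h3 := congrFun hc (e i)
  simp only [map_smul, hv'] at h3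
  rw [Finset.sum_apply, Finset.sum_eq_single i] at h3
  · simpa using h3
  · intro j _ hj
    rw [Pi.smul_apply, Pi.single_eq_of_ne, smul_zero]
    intro hcon
    exact hj (e.injective hcon).symm
  · intro hi
    exact absurd (Finset.mem_univ i) hi

theorem taskDim : Pool.Agent.H713R3.PI.TaskDim := by
  intro K _ n w d P0 h
  have fin : ∀ P : Fin n → Fin 2 → K,
      Module.finrank K ↥(mspan K (Tset d) ⊓ Submodule.restrictScalars K
        (vIdeal 1 w (fun a => P a 0) (fun a => C (P a 1)))) =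
        (d + 2).choose 2 - ∑ a, (EE 1 (w a)).card → ExpDim K w P d := by
    intro P h5
    have hsum : ∑ a, (EE 1 (w a)).card = ∑ i, (w i + 1).choose 2 :=
      Finset.sum_congr rfl fun i _ => card_EE_eq (w i)
    rw [hsum] at h5
    unfold ExpDim
    rw [← h5]
    refine finrank_forms _ _ fun F hF => ?_
    rw [Submodule.restrictScalars_mem, Submodule.restrictScalars_mem]
    unfold vIdeal
    rw [Ideal.mem_iInf, Ideal.mem_iInf]
    exact forall_congr' fun i => mem_ptIdeal_iff hF
  rcases h with h | h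
  · let c : Fin n → MvPolynomial (Fin n × Fin 2) K := fun a => MvPolynomial.X (a, 0)
    let γ : Fin n → (MvPolynomial (Fin n × Fin 2) K)[X] := fun a => C (MvPolynomial.X (a, 1))
    have hev : ∀ P : Fin n × Fin 2 → K,
        vIdeal 1 w (fun a => MvPolynomial.eval P (c a))
          (fun a => (γ a).map (MvPolynomial.eval P)) =
        vIdeal 1 w (fun a => P (a, 0)) (fun a => C (P (a, 1))) := by
      intro P
      simp [c, γ]
    obtain ⟨F, hF, hF'⟩ := exists_openV 1 w c γ (Tset d) (∑ a, (EE 1 (w a)).card)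
      (fun ij : Fin n × Fin 2 => P0 ij.1 ij.2) (by
        rw [hev]
        exact ind_rk h)
    refine ⟨F, hF, fun P hP => fin P ?_⟩
    have h3 := hF' _ hP
    rw [hev] at h3
    exact finrank_indep h3 d le_rfl
  · obtain ⟨F, hF, hF'⟩ := points_open w P0 h
    refine ⟨F, hF, fun P hP => fin P ?_⟩
    exact finrank_full (hF' P hP).rk d le_rfl

end Pool.Agent.H713R3.PI.Dim
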