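import Mathlib
import Pool.Agent.H713R3.PI.Stmts

/-! helper116: task GRID of project PIND713. -/

set_option autoImplicit false

namespace Pool.Agent.H713R3.PI

open Polynomial Pool.Agent.H932R2 Pool.Agent.H932R3

namespace Grid

variable {K : Type} [Field K]

theorem smul_eq (a : K) (f : K[X][X]) : a • f = C (C a) * f := by
  rw [Algebra.smul_def]
  rfl

theorem mon_mem {d i l : ℕ} (h : i + l ≤ d) : C (X ^ i) * X ^ l ∈ mspan K (Tset d) :=
  Submodule.subset_span ⟨(i, l), h, rfl⟩

/-- products of low degree -/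
theorem prod_mem {d : ℕ} (F G : K[X]) (h : F.natDegree + G.natDegree ≤ d) :
    C F * G.map C ∈ mspan K (Tset d) := by
  have hF := F.as_sum_range_C_mul_X_pow
  have hG := G.as_sum_range_C_mul_X_pow
  have e : C F * G.map C = ∑ i ∈ Finset.range (F.natDegree + 1),
      ∑ l ∈ Finset.range (G.natDegree + 1),
        (F.coeff i * G.coeff l) • ((C (X ^ i) * X ^ l : K[X][X])) := by
    calc C F * G.map C = C (∑ i ∈ Finset.range (F.natDegree + 1), C (F.coeff i) * X ^ i) *
          (∑ l ∈ Finset.range (G.natDegree + 1), C (G.coeff l) * X ^ l).map C := by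
            rw [← hF, ← hG]
      _ = _ := by
            rw [map_sum, Polynomial.map_sum, Finset.sum_mul_sum]
            refine Finset.sum_congr rfl fun i _ => Finset.sum_congr rfl fun l _ => ?_
            rw [smul_eq, Polynomial.map_mul, map_C, Polynomial.map_pow, map_X]
            simp only [C_mul]
            ring
  rw [e]
  refine Submodule.sum_mem _ fun i hi => Submodule.sum_mem _ fun l hl =>
    Submodule.smul_mem _ _ (mon_mem ?_)
  rw [Finset.mem_range] at hi hl
  omega

/-- the span of the `p ^ a X ^ r` -/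
noncomputable def Sp (p : K[X]) (c : ℕ) : Submodule K K[X] :=
  Submodule.span K {f | ∃ a r : ℕ, r < c ∧ f = p ^ a * X ^ r}

theorem p_mul_mem {p : K[X]} {c : ℕ} {f : K[X]} (hf : f ∈ Sp p c) : p * f ∈ Sp p c := by
  refine Submodule.span_induction ?_ ?_ ?_ ?_ hf
  · rintro _ ⟨a, r, hr, rfl⟩
    refine Submodule.subset_span ⟨a + 1, r, hr, ?_⟩
    ring
  · rw [mul_zero]
    exact Submodule.zero_mem _
  · intro f g _ _ h1 h2
    rw [mul_add]
    exact Submodule.add_mem _ h1 h2
  · intro t f _ h1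
    rw [mul_smul_comm]
    exact Submodule.smul_mem _ _ h1

theorem low_mem {p : K[X]} {c : ℕ} {f : K[X]} (hf : f.natDegree < c) : f ∈ Sp p c := by
  rw [f.as_sum_range_C_mul_X_pow' hf]
  refine Submodule.sum_mem _ fun i hi => ?_
  rw [← smul_eq_C_mul]
  refine Submodule.smul_mem _ _ (Submodule.subset_span ⟨0, i, Finset.mem_range.1 hi, ?_⟩)
  rw [pow_zero, one_mul]

theorem Sp_top {p : K[X]} (hp : p.Monic) {c : ℕ} (hc : 0 < c) (hpc : p.natDegree = c) :
    ∀ (n : ℕ) (f : K[X]), f.natDegree < n → f ∈ Sp p c := by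
  intro n
  induction n with
  | zero => intro f h; exact absurd h (Nat.not_lt_zero _)
  | succ n ih =>
    intro f hf
    by_cases h : f.natDegree < c
    · exact low_mem h
    · have hp1 : p ≠ 1 := by
        rintro rfl
        rw [natDegree_one] at hpc
        omega
      have h1 := modByMonic_add_div f p
      rw [← h1]
      refine Submodule.add_mem _ (low_mem ?_) (p_mul_mem (ih _ ?_))
      · rw [← hpc]
        exact natDegree_modByMonic_lt f hp hp1
      · rw [natDegree_divByMonic f hp, hpc]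
        omega

theorem base_eq (p : K[X]) (a r b s : ℕ) : C (p ^ a * X ^ r) * (p ^ b * X ^ s).map C =
    (C p ^ a * (p.map C) ^ b) * (C (X ^ r) * (X ^ s : K[X]).map C) := by
  rw [C_mul, C_pow, Polynomial.map_mul, Polynomial.map_pow]
  exact mul_mul_mul_comm _ _ _ _

theorem smulL_eq (t : K) (f G : K[X]) : C (t • f) * G.map C = t • (C f * G.map C) := by
  rw [smul_eq, smul_eq_C_mul, C_mul, mul_assoc]

theorem smulR_eq (t : K) (f : K[X]) (F : K[X][X]) : F * (t • f).map C = t • (F * f.map C) := by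
  rw [smul_eq, smul_eq_C_mul, Polynomial.map_mul, map_C]
  exact mul_left_comm _ _ _

theorem red {p : K[X]} (hp : p.Monic) {c : ℕ} (hc : 0 < c) (hpc : p.natDegree = c) {M d : ℕ}
    (hd : c * (M + 1) ≤ d + 2) (h : K[X][X]) :
    ∃ f ∈ mspan K (Tset d), ∃ j ∈ (Ideal.span {C p, p.map C} : Ideal K[X][X]) ^ M, f + j = h := by
  obtain ⟨J, hJ⟩ : ∃ J : Ideal K[X][X], J = Ideal.span {C p, p.map C} := ⟨_, rfl⟩
  rw [← hJ]
  have hJ1 : C p ∈ J := by
    rw [hJ]
    exact Ideal.subset_span (Set.mem_insert _ _)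
  have hJ2 : p.map C ∈ J := by
    rw [hJ]
    exact Ideal.subset_span (Set.mem_insert_of_mem _ rfl)
  obtain ⟨N, hN⟩ : ∃ N : Ideal K[X][X], N = J ^ M := ⟨_, rfl⟩
  rw [← hN]
  obtain ⟨T, hTd⟩ : ∃ T : Submodule K K[X][X], T = mspan K (Tset d) ⊔ N.restrictScalars K := ⟨_, rfl⟩
  have hT1 : ∀ z ∈ mspan K (Tset d), z ∈ T := by
    intro z hz
    rw [hTd]
    exact Submodule.mem_sup_left hz
  have hT2 : ∀ z ∈ N, z ∈ T := by
    intro z hz
    rw [hTd]
    exact Submodule.mem_sup_right ((Submodule.restrictScalars_mem K N z).2 hz)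
  have hbase : ∀ a r b s : ℕ, r < c → s < c → C (p ^ a * X ^ r) * (p ^ b * X ^ s).map C ∈ T := by
    intro a r b s hr hs
    by_cases hab : M ≤ a + b
    · refine hT2 _ ?_
      rw [base_eq, hN]
      refine Ideal.mul_mem_right _ _ ?_
      have h1 : C p ^ a * (p.map C) ^ b ∈ J ^ (a + b) := by
        have h2 : J ^ (a + b) = J ^ a * J ^ b := pow_add J a b
        rw [h2]
        exact Ideal.mul_mem_mul (Ideal.pow_mem_pow hJ1 a) (Ideal.pow_mem_pow hJ2 b)
      exact Ideal.pow_le_pow_right hab h1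
    · refine hT1 _ (prod_mem _ _ ?_)
      have h1 : (p ^ a * X ^ r).natDegree = a * c + r := by
        rw [(hp.pow a).natDegree_mul (monic_X_pow r), hp.natDegree_pow, hpc, natDegree_X_pow]
      have h2 : (p ^ b * X ^ s).natDegree = b * c + s := by
        rw [(hp.pow b).natDegree_mul (monic_X_pow s), hp.natDegree_pow, hpc, natDegree_X_pow]
      rw [h1, h2]
      have h3 : a + b + 1 ≤ M := by omega
      have h4 : c * (a + b + 2) ≤ c * (M + 1) := Nat.mul_le_mul_left c (by omega)
      have h5 : c * (a + b + 2) = a * c + b * c + 2 * c := by ring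
      omega
  have hmul : ∀ F G : K[X], C F * G.map C ∈ T := by
    intro F G
    have hF : F ∈ Sp p c := Sp_top hp hc hpc _ F (Nat.lt_succ_self _)
    have hG : G ∈ Sp p c := Sp_top hp hc hpc _ G (Nat.lt_succ_self _)
    refine Submodule.span_induction ?_ ?_ ?_ ?_ hF
    · rintro _ ⟨a, r, hr, rfl⟩
      refine Submodule.span_induction ?_ ?_ ?_ ?_ hG
      · rintro _ ⟨b, s, hs, rfl⟩
        exact hbase a r b s hr hs
      · rw [Polynomial.map_zero, mul_zero]
        exact T.zero_mem
      · intro f f' _ _ h1 h2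
        rw [Polynomial.map_add, mul_add]
        exact T.add_mem h1 h2
      · intro t f _ h1
        rw [smulR_eq]
        exact T.smul_mem _ h1
    · rw [C_0, zero_mul]
      exact T.zero_mem
    · intro f f' _ _ h1 h2
      rw [C_add, add_mul]
      exact T.add_mem h1 h2
    · intro t f _ h1
      rw [smulL_eq]
      exact T.smul_mem _ h1
  have hT : h ∈ T := by
    rw [h.as_sum_range_C_mul_X_pow]
    refine T.sum_mem fun l _ => ?_
    have h1 := hmul (h.coeff l) (X ^ l)
    rwa [Polynomial.map_pow, map_X] at h1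
  rw [hTd] at hT
  obtain ⟨f, hf, j, hj, hfj⟩ := Submodule.mem_sup.1 hT
  exact ⟨f, hf, j, (Submodule.restrictScalars_mem K N j).1 hj, hfj⟩

end Grid

open Grid in
theorem taskGrid : TaskGrid := by
  intro K _ _ c M d hc hd
  classical
  -- distinct elements
  obtain ⟨x⟩ : Nonempty (Fin c ↪ K) := ⟨(Fin.valEmbedding).trans (Infinite.natEmbedding K)⟩
  obtain ⟨p, hpd⟩ : ∃ p : K[X], p = ∏ i : Fin c, (X - C (x i)) := ⟨_, rfl⟩
  have hp : p.Monic := by
    rw [hpd]
    exact monic_prod_of_monic _ _ fun i _ => monic_X_sub_C (x i)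
  have hpc : p.natDegree = c := by
    rw [hpd, natDegree_prod_of_monic _ _ (fun i _ => monic_X_sub_C (x i))]
    simp
  have hdvd : ∀ i : Fin c, (X - C (x i)) ∣ p := by
    intro i
    rw [hpd]
    exact Finset.dvd_prod_of_mem _ (Finset.mem_univ i)
  let ev : Fin (c * c) → Fin c × Fin c := fun v => finProdFinEquiv.symm v
  have hev : Function.Injective ev := finProdFinEquiv.symm.injective
  let Q : Fin (c * c) → Fin 2 → K := fun v => ![x (ev v).1, x (ev v).2]
  refine ⟨Q, ?_⟩
  intro g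
  -- the ideals
  let I : Fin (c * c) → Ideal K[X][X] := fun v =>
    Ideal.span {X - C (C (x (ev v).2)), C (X - C (x (ev v).1))}
  have hI : ∀ v, cIdeal (fun _ : Fin 1 => Q v 0) (C (Q v 1)) M = I v ^ M := by
    intro v
    unfold cIdeal rootPoly
    simp [Q, I]
  have hcop : Pairwise (Function.onFun IsCoprime fun v => I v ^ M) := by
    intro v w hvw
    show IsCoprime (I v ^ M) (I w ^ M)
    refine IsCoprime.pow ?_
    rw [Ideal.isCoprime_iff_exists]
    have hne : ev v ≠ ev w := fun h => hvw (hev h)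
    have hu1 : (X - C (C (x (ev v).2)) : K[X][X]) ∈ I v := Ideal.subset_span (by simp)
    have hu2 : (C (X - C (x (ev v).1)) : K[X][X]) ∈ I v := Ideal.subset_span (by simp)
    have hw1 : (X - C (C (x (ev w).2)) : K[X][X]) ∈ I w := Ideal.subset_span (by simp)
    have hw2 : (C (X - C (x (ev w).1)) : K[X][X]) ∈ I w := Ideal.subset_span (by simp)
    by_cases h1 : (ev v).1 = (ev w).1
    · have h2 : (ev v).2 ≠ (ev w).2 := fun h => hne (Prod.ext h1 h)
      have h3 : x (ev w).2 - x (ev v).2 ≠ 0 := sub_ne_zero.2 fun h => h2 (x.injective h).symm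
      refine ⟨C (C (x (ev w).2 - x (ev v).2)⁻¹) * (X - C (C (x (ev v).2))),
        Ideal.mul_mem_left _ _ hu1, -(C (C (x (ev w).2 - x (ev v).2)⁻¹) * (X - C (C (x (ev w).2)))),
        Ideal.neg_mem_iff _ |>.2 (Ideal.mul_mem_left _ _ hw1), ?_⟩
      have e : C (C (x (ev w).2 - x (ev v).2)⁻¹) * (X - C (C (x (ev v).2))) +
          -(C (C (x (ev w).2 - x (ev v).2)⁻¹) * (X - C (C (x (ev w).2)))) =
          (C (C ((x (ev w).2 - x (ev v).2)⁻¹ * (x (ev w).2 - x (ev v).2))) : K[X][X]) := by
        simp only [C_mul, C_sub]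
        ring
      rw [e, inv_mul_cancel₀ h3, C_1, C_1]
    · have h3 : x (ev w).1 - x (ev v).1 ≠ 0 := sub_ne_zero.2 fun h => h1 (x.injective h).symm
      refine ⟨C (C (x (ev w).1 - x (ev v).1)⁻¹) * C (X - C (x (ev v).1)),
        Ideal.mul_mem_left _ _ hu2, -(C (C (x (ev w).1 - x (ev v).1)⁻¹) * C (X - C (x (ev w).1))),
        Ideal.neg_mem_iff _ |>.2 (Ideal.mul_mem_left _ _ hw2), ?_⟩
      have e : C (C (x (ev w).1 - x (ev v).1)⁻¹) * C (X - C (x (ev v).1)) +
          -(C (C (x (ev w).1 - x (ev v).1)⁻¹) * C (X - C (x (ev w).1))) =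
          (C (C ((x (ev w).1 - x (ev v).1)⁻¹ * (x (ev w).1 - x (ev v).1))) : K[X][X]) := by
        simp only [C_mul, C_sub]
        ring
      rw [e, inv_mul_cancel₀ h3, C_1, C_1]
  obtain ⟨h, hh⟩ := Ideal.exists_forall_sub_mem_ideal hcop g
  -- reduction
  let J : Ideal K[X][X] := Ideal.span {C p, p.map C}
  have hJI : ∀ v, J ≤ I v := by
    intro v
    rw [Ideal.span_le]
    intro y hy
    rcases hy with rfl | hy
    · obtain ⟨t, ht⟩ := hdvd (ev v).1
      show C p ∈ I v
      rw [ht, C_mul]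
      exact Ideal.mul_mem_right _ _ (Ideal.subset_span (by simp))
    · rw [Set.mem_singleton_iff] at hy
      rw [hy]
      obtain ⟨t, ht⟩ := hdvd (ev v).2
      show p.map C ∈ I v
      rw [ht, Polynomial.map_mul, Polynomial.map_sub, map_X, map_C]
      exact Ideal.mul_mem_right _ _ (Ideal.subset_span (by simp))
  obtain ⟨f, hf, j, hj, hfj⟩ := red hp hc hpc hd h
  refine ⟨f, hf, fun v _ => ?_⟩
  rw [hI]
  have h1 : f - g v = (h - g v) - j := by
    rw [← hfj]
    ring
  rw [h1]
  exact Ideal.sub_mem _ (hh v) (Ideal.pow_right_mono (hJI v) M hj)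

end Pool.Agent.H713R3.PI
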