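import Pool.Agent.H713R3.PI.Stmts
import Pool.Agent.H713R3.PK.Comp

set_option autoImplicit false

/-!
# Project PIND: the rules for cells
-/

namespace Pool.Agent.H713R3.PI

open Polynomial Pool.Agent.H932R2 Pool.Agent.H932R3 Pool.Agent.H713R3.PK

section Rules

variable {K : Type} [Field K]

theorem IND.congr_points {n : ℕ} {T : Finset (Fin n)} {P P' : Fin n → Fin 2 → K}
    {w : Fin n → ℕ} {d : ℕ} (h : IND K T P w d) (hP : ∀ i ∈ T, P i = P' i) :
    IND K T P' w d := by
  intro g
  obtain ⟨f, hf, hf'⟩ := h g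
  refine ⟨f, hf, fun i hi => ?_⟩
  rw [← hP i hi]
  exact hf' i hi

theorem ind_empty {n : ℕ} (P : Fin n → Fin 2 → K) (w : Fin n → ℕ) (d : ℕ) :
    IND K (∅ : Finset (Fin n)) P w d := fun g =>
  ⟨0, Submodule.zero_mem _, fun i hi => absurd hi (Finset.notMem_empty i)⟩

theorem ind_zero {n : ℕ} (T : Finset (Fin n)) (P : Fin n → Fin 2 → K) (w : Fin n → ℕ) (d : ℕ)
    (hw : ∀ i ∈ T, w i = 0) : IND K T P w d := fun g =>
  ⟨0, Submodule.zero_mem _, fun i hi => by
    rw [hw i hi, mem_c_iff]
    intro p hp
    exact absurd hp (Nat.not_lt_zero _)⟩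

theorem indOn_empty {n : ℕ} (a : Fin n → ℝ) : IndOn K (∅ : Finset (Fin n)) a :=
  ⟨fun i hi => absurd hi (Finset.notMem_empty i), fun w _ d _ _ _ =>
    ⟨fun _ _ => 0, ind_empty _ w d⟩⟩

theorem indOn_mono {n : ℕ} (T : Finset (Fin n)) (a a' : Fin n → ℝ) (h : ∀ i ∈ T, a i ≤ a' i)
    (hg : IndOn K T a') : IndOn K T a := by
  refine ⟨fun i hi => (h i hi).trans (hg.1 i hi), fun w x d hx hw hd => ?_⟩
  exact hg.2 w x d hx (fun i hi => (hw i hi).trans (mul_le_mul_of_nonneg_right (h i hi) hx)) hd

theorem sh_zero_zero (f : K[X][X]) : sh (0 : K) (C 0) f = f := by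
  have h : sh (0 : K) (C 0) = RingHom.id K[X][X] := by
    refine ringHom_ext' (ringHom_ext' ?_ ?_) ?_
    · ext c
      simp [sh_C]
    · simp [sh_C]
    · simp [sh_X]
  exact congrArg (fun φ : K[X][X] →+* K[X][X] => φ f) h

/-- One point at the origin. -/
theorem ind_single {n : ℕ} (T : Finset (Fin n)) (hT : T.card ≤ 1) (w : Fin n → ℕ) (d : ℕ)
    (hw : ∀ i ∈ T, w i ≤ d + 1) : IND K T (fun _ _ => 0) w d := by
  classical
  rcases T.eq_empty_or_nonempty with rfl | ⟨i, hi⟩
  · exact ind_empty _ w d
  intro g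
  refine ⟨∑ e ∈ Finset.range (d + 1), Eh e (g i), ?_, fun j hj => ?_⟩
  · exact Submodule.sum_mem _ fun e he => Eh_mem (by
      have := Finset.mem_range.1 he
      omega) _
  · have hji : j = i := Finset.card_le_one.mp hT j hj i hi
    subst hji
    show _ ∈ cIdeal (fun _ : Fin 1 => (0 : K)) (C 0) (w j)
    rw [mem_c_iff]
    intro p hp
    have h1 := hw j hj
    rw [shL_apply, sh_zero_zero, map_sub, map_sum]
    have h2 : ∑ e ∈ Finset.range (d + 1), coL p (Eh e (g j)) = coL p (g j) := by
      rw [Finset.sum_congr rfl fun e _ => co_Eh e p (g j), Finset.sum_ite_eq]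
      rw [if_pos]
      rw [Finset.mem_range]
      omega
    rw [h2, sub_self]

theorem indOn_le_one {n : ℕ} (T : Finset (Fin n)) (a : Fin n → ℝ)
    (hT : T.card ≤ 1) (ha : ∀ i ∈ T, a i ≤ 1) : IndOn K T a := by
  refine ⟨ha, fun w x d hx hw hd => ⟨fun _ _ => 0, ind_single T hT w d fun i hi => ?_⟩⟩
  have h1 : (w i : ℝ) + 1 ≤ x := by
    refine (hw i hi).trans ?_
    have := mul_le_mul_of_nonneg_right (ha i hi) hx
    rwa [one_mul] at this
  have h2 : (w i : ℝ) < d + 2 := by linarith
  have h3 : w i < d + 2 := by exact_mod_cast h2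
  omega

/-- `c ^ 2` cells of size `1 / c`. -/
theorem cells (hG : TaskGrid) (hC : TaskCompI) [Infinite K] {n c : ℕ} (hc : 0 < c)
    (T : Finset (Fin n)) (f : Fin n → ℕ) (b : Fin n → ℝ) (hb : ∀ i ∈ T, 0 ≤ b i)
    (hf : ∀ i ∈ T, f i < c * c)
    (h : ∀ v < c * c, IndOn K (T.filter fun i => f i = v) b) :
    IndOn K T fun i => b i / c := by
  classical
  have hcR : (0 : ℝ) < c := by exact_mod_cast hc
  have hc1 : (1 : ℝ) ≤ c := by exact_mod_cast hc
  have hcc : 0 < c * c := Nat.mul_pos hc hc
  have hb1 : ∀ i ∈ T, b i ≤ 1 := fun i hi =>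
    (h (f i) (hf i hi)).1 i (Finset.mem_filter.2 ⟨hi, rfl⟩)
  refine ⟨fun i hi => ?_, fun w x d hx hw hd => ?_⟩
  · show b i / c ≤ 1
    rw [div_le_one hcR]
    exact (hb1 i hi).trans hc1
  have hy0 : 0 ≤ x / c := div_nonneg hx hcR.le
  have hwy : ∀ i ∈ T, (w i : ℝ) + 1 ≤ b i * (x / c) := by
    intro i hi
    have h1 := hw i hi
    have h2 : b i / (c : ℝ) * x = b i * (x / c) := by ring
    simp only at h1
    rwa [h2] at h1
  set k := ⌊x / c⌋₊ with hk
  have hk1 : (k : ℝ) ≤ x / c := Nat.floor_le hy0
  have hk2 : x / c < k + 1 := Nat.lt_floor_add_one _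
  by_cases hk3 : k ≤ 1
  · refine ⟨fun _ _ => 0, ind_zero T _ w d fun i hi => ?_⟩
    have h1 : (w i : ℝ) + 1 ≤ x / c := by
      refine (hwy i hi).trans ?_
      have := mul_le_mul_of_nonneg_right (hb1 i hi) hy0
      rwa [one_mul] at this
    have h2 : (k : ℝ) ≤ 1 := by exact_mod_cast hk3
    have h3 : (w i : ℝ) < 1 := by linarith
    have h4 : w i < 1 := by exact_mod_cast h3
    omega
  · have hM : 0 < k - 1 := by omega
    have hck : c * (k - 1 + 1) ≤ d + 2 := by
      have h1 : k - 1 + 1 = k := by omega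
      rw [h1]
      have h2 : (c : ℝ) * k ≤ x := by
        have := mul_le_mul_of_nonneg_left hk1 hcR.le
        rwa [mul_div_cancel₀ _ hcR.ne'] at this
      have h3 : ((c * k : ℕ) : ℝ) < ((d + 3 : ℕ) : ℝ) := by
        push_cast
        linarith
      have h4 : c * k < d + 3 := by exact_mod_cast h3
      omega
    obtain ⟨Q, hQ⟩ := hG K c (k - 1) d hc hck
    have hR : ∀ v : Fin (c * c), ∃ R : Fin n → Fin 2 → K,
        IND K (T.filter fun i => f i = (v : ℕ)) R w (k - 1 - 1) := by
      intro v
      refine (h v v.2).2 w (x / c) (k - 1 - 1) hy0 (fun i hi => ?_) ?_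
      · exact hwy i (Finset.mem_filter.1 hi).1
      · have h1 : ((k - 1 - 1 : ℕ) : ℝ) = k - 2 := by
          have h2 : k - 1 - 1 + 2 = k := by omega
          have h3 : ((k - 1 - 1 : ℕ) : ℝ) + 2 = k := by exact_mod_cast h2
          linarith
        rw [h1]
        linarith
    choose R hR using hR
    set π : Fin n → Fin (c * c) := fun i => if h2 : f i < c * c then ⟨f i, h2⟩ else ⟨0, hcc⟩
      with hπ
    have hfilter : ∀ j : Fin (c * c), (T.filter fun i => π i = j) =
        T.filter fun i => f i = (j : ℕ) := by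
      intro j
      refine Finset.filter_congr fun i hi => ?_
      rw [hπ]
      simp only [dif_pos (hf i hi)]
      rw [Fin.ext_iff]
    refine hC K n (c * c) T π w (k - 1) d Q hM hQ (fun i => R (π i) i) fun j => ?_
    rw [hfilter j]
    refine (hR j).congr_points fun i hi => ?_
    have h2 : i ∈ T.filter fun i => π i = j := by
      rw [hfilter j]
      exact hi
    rw [(Finset.mem_filter.1 h2).2]

theorem partUnion {n : ℕ} (T1 T2 : Finset (Fin n)) (a : Fin n → ℝ) (V1 V2 : ℕ)
    (hdis : Disjoint T1 T2) (hp1 : PartI K T1 a V1) (hp2 : PartI K T2 a V2) :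
    PartI K (T1 ∪ T2) a (V1 + V2) := by
  obtain ⟨f1, h1, g1⟩ := hp1
  obtain ⟨f2, h2, g2⟩ := hp2
  classical
  have hn1 : ∀ i ∈ T2, i ∉ T1 := fun i hi hi' => (Finset.disjoint_left.mp hdis) hi' hi
  refine ⟨fun i => if i ∈ T1 then f1 i else V1 + f2 i, ?_, ?_⟩
  · intro i hi
    by_cases hi1 : i ∈ T1
    · simp only [if_pos hi1]
      have := h1 i hi1
      omega
    · simp only [if_neg hi1]
      have hi2 : i ∈ T2 := by
        rcases Finset.mem_union.mp hi with h | h
        · exact absurd h hi1
        · exact h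
      have := h2 i hi2
      omega
  · intro v hv
    by_cases hv1 : v < V1
    · have e : (T1 ∪ T2).filter (fun i => (if i ∈ T1 then f1 i else V1 + f2 i) = v) =
          T1.filter (fun i => f1 i = v) := by
        ext i
        simp only [Finset.mem_filter, Finset.mem_union]
        constructor
        · rintro ⟨hi, hiv⟩
          by_cases hi1 : i ∈ T1
          · rw [if_pos hi1] at hiv
            exact ⟨hi1, hiv⟩
          · rw [if_neg hi1] at hiv
            omega
        · rintro ⟨hi1, hiv⟩
          rw [if_pos hi1]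
          exact ⟨Or.inl hi1, hiv⟩
      rw [e]
      exact g1 v hv1
    · have e : (T1 ∪ T2).filter (fun i => (if i ∈ T1 then f1 i else V1 + f2 i) = v) =
          T2.filter (fun i => f2 i = v - V1) := by
        ext i
        simp only [Finset.mem_filter, Finset.mem_union]
        constructor
        · rintro ⟨hi, hiv⟩
          by_cases hi1 : i ∈ T1
          · rw [if_pos hi1] at hiv
            have := h1 i hi1
            omega
          · rw [if_neg hi1] at hiv
            refine ⟨?_, by omega⟩
            rcases hi with h | h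
            · exact absurd h hi1
            · exact h
        · rintro ⟨hi2, hiv⟩
          rw [if_neg (hn1 i hi2)]
          exact ⟨Or.inr hi2, by omega⟩
      rw [e]
      exact g2 (v - V1) (by omega)

theorem partMerge (hG : TaskGrid) (hC : TaskCompI) [Infinite K] {n : ℕ} (T : Finset (Fin n))
    (a : Fin n → ℝ) (V : ℕ) (ha : ∀ i ∈ T, 0 ≤ a i) (hp : PartI K T a V) :
    PartI K T (fun i => a i / 4) ((V + 15) / 16) := by
  obtain ⟨f, h1, g1⟩ := hp
  refine ⟨fun i => f i / 16, ?_, ?_⟩
  · intro i hi
    have := h1 i hi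
    show f i / 16 < (V + 15) / 16
    omega
  · intro v _
    have h2 := cells (K := K) hG hC (c := 4) (by norm_num) (T.filter (fun i => f i / 16 = v))
      (fun i => f i % 16) a
      (fun i hi => ha i (Finset.mem_filter.mp hi).1)
      (fun i _ => Nat.mod_lt _ (by norm_num))
      (fun u hu => ?_)
    · have h3 : (fun i => a i / ((4 : ℕ) : ℝ)) = fun i => a i / 4 := by
        funext i
        norm_num
      rwa [h3] at h2
    · have hu' : u < 16 := by omega
      have e : (T.filter (fun i => f i / 16 = v)).filter (fun i => f i % 16 = u) =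
          T.filter (fun i => f i = 16 * v + u) := by
        ext i
        simp only [Finset.mem_filter]
        constructor
        · rintro ⟨⟨hi, h4⟩, h5⟩
          exact ⟨hi, by omega⟩
        · rintro ⟨hi, h4⟩
          exact ⟨⟨hi, by omega⟩, by omega⟩
      rw [e]
      by_cases hV : 16 * v + u < V
      · exact g1 _ hV
      · have e2 : T.filter (fun i => f i = 16 * v + u) = ∅ := by
          rw [Finset.filter_eq_empty_iff]
          intro i hi h4
          have := h1 i hi
          omega
        rw [e2]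
        exact indOn_empty a

theorem partUniform (hG : TaskGrid) (hC : TaskCompI) [Infinite K] {n : ℕ} (c : ℕ) (hc : 4 ≤ c)
    (T : Finset (Fin n)) (a : Fin n → ℝ) (ha : ∀ i ∈ T, 0 ≤ a i ∧ a i ≤ 1 / (c : ℝ)) :
    PartI K T a ((T.card + (c * c - 1)) / (c * c)) := by
  classical
  have hc0 : 0 < c * c := Nat.mul_pos (by omega) (by omega)
  have hcR : (0 : ℝ) < c := by
    have : 0 < c := by omega
    exact_mod_cast this
  let idx : Fin n → ℕ := fun i => if h : i ∈ T then (T.equivFin ⟨i, h⟩ : ℕ) else 0
  have hidx : ∀ i (h : i ∈ T), idx i = (T.equivFin ⟨i, h⟩ : ℕ) := fun i h => dif_pos h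
  have hlt : ∀ i ∈ T, idx i < T.card := by
    intro i hi
    rw [hidx i hi]
    exact (T.equivFin ⟨i, hi⟩).2
  have hinj : ∀ i ∈ T, ∀ j ∈ T, idx i = idx j → i = j := by
    intro i hi j hj hij
    rw [hidx i hi, hidx j hj] at hij
    have := T.equivFin.injective (Fin.ext hij)
    exact congrArg Subtype.val this
  refine ⟨fun i => idx i / (c * c), ?_, ?_⟩
  · intro i hi
    have h1 := hlt i hi
    show idx i / (c * c) < (T.card + (c * c - 1)) / (c * c)
    have h2 : (idx i + c * c) / (c * c) ≤ (T.card + (c * c - 1)) / (c * c) :=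
      Nat.div_le_div_right (by omega)
    rw [Nat.add_div_right _ hc0] at h2
    omega
  · intro v _
    have h2 := cells (K := K) hG hC (c := c) (by omega)
      (T.filter (fun i => idx i / (c * c) = v)) (fun i => idx i % (c * c))
      (fun i => c * a i)
      (fun i hi => mul_nonneg hcR.le (ha i (Finset.mem_filter.mp hi).1).1)
      (fun i _ => Nat.mod_lt _ hc0)
      (fun u _ => ?_)
    · refine indOn_mono _ _ _ (fun i _ => ?_) h2
      show a i ≤ c * a i / c
      rw [mul_div_cancel_left₀ _ hcR.ne']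
    · refine indOn_le_one _ _ ?_ ?_
      · rw [Finset.card_le_one]
        intro i hi j hj
        simp only [Finset.mem_filter] at hi hj
        apply hinj i hi.1.1 j hj.1.1
        rw [← Nat.div_add_mod (idx i) (c * c), ← Nat.div_add_mod (idx j) (c * c), hi.1.2, hi.2,
          hj.1.2, hj.2]
      · intro i hi
        simp only [Finset.mem_filter] at hi
        have h3 := (ha i hi.1.1).2
        have h4 := mul_le_mul_of_nonneg_left h3 hcR.le
        rwa [mul_one_div_cancel hcR.ne'] at h4

theorem partFinal (hG : TaskGrid) (hC : TaskCompI) [Infinite K] {n : ℕ} (T : Finset (Fin n))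
    (a : Fin n → ℝ) (t V : ℕ) (ha : ∀ i ∈ T, 0 ≤ a i) (hV : V ≤ 16 ^ t)
    (hp : PartI K T a V) : IndOn K T fun i => a i / 4 ^ t := by
  induction t generalizing a V with
  | zero =>
    obtain ⟨f, h1, g1⟩ := hp
    rw [pow_zero] at hV
    have hgood : IndOn K T a := by
      by_cases hV0 : V = 0
      · have hT : T = ∅ := by
          rw [Finset.eq_empty_iff_forall_notMem]
          intro i hi
          have := h1 i hi
          omega
        rw [hT]
        exact indOn_empty a
      · have h2 := g1 0 (by omega)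
        have e : T.filter (fun i => f i = 0) = T := by
          rw [Finset.filter_eq_self]
          intro i hi
          have := h1 i hi
          omega
        rwa [e] at h2
    refine indOn_mono _ _ _ (fun i _ => ?_) hgood
    rw [pow_zero, div_one]
  | succ t ih =>
    have h1 := partMerge hG hC T a V ha hp
    have h2 : (V + 15) / 16 ≤ 16 ^ t := by
      rw [pow_succ] at hV
      omega
    have h3 := ih (fun i => a i / 4) ((V + 15) / 16)
      (fun i hi => div_nonneg (ha i hi) (by norm_num)) h2 h1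
    refine indOn_mono _ _ _ (fun i _ => ?_) h3
    rw [pow_succ, div_div, mul_comm]

end Rules

theorem taskRules : TaskRules := by
  intro hG hC K _ _ n
  exact ⟨fun T1 T2 a V1 V2 hd h1 h2 => partUnion T1 T2 a V1 V2 hd h1 h2,
    fun T a V ha h => partMerge hG hC T a V ha h,
    fun c hc T a ha => partUniform hG hC c hc T a ha,
    fun T a a' h hg => indOn_mono T a a' h hg,
    fun T a t V ha hV h => partFinal hG hC T a t V ha hV h⟩

end Pool.Agent.H713R3.PI
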